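import Pool.Agent.MP_ea150c_mp.H16.FSpec

/-! Row TrL: traces of an almost triangular operator. -/

namespace Pool.Agent.MP_ea150c_mp.H28

open Pool.Agent.MP_ea150c_mp.H49 Pool.Agent.MP_ea150c_mp.H16

noncomputable section

section Gen
variable {O L : Type} [CommRing O] [AddCommGroup L] [Module O L]

theorem mem_sm_top (c : O) (x : L) : x ∈ sm c (⊤ : Submodule O L) ↔ ∃ y, c • y = x := by
  simp [sm]

/-- An operator with divisible values on a projective module is divisible. -/
theorem exists_div {P : Type} [AddCommGroup P] [Module O P] [Module.Projective O P]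
    (c : O) (T : P →ₗ[O] L) (h : ∀ x, ∃ y, c • y = T x) : ∃ U : P →ₗ[O] L, T = c • U := by
  let f : L →ₗ[O] LinearMap.range (LinearMap.lsmul O L c) :=
    (LinearMap.lsmul O L c).rangeRestrict
  have hf : Function.Surjective f := LinearMap.surjective_rangeRestrict _
  let g : P →ₗ[O] LinearMap.range (LinearMap.lsmul O L c) :=
    T.codRestrict _ fun x => by
      obtain ⟨y, hy⟩ := h x
      exact ⟨y, hy⟩
  obtain ⟨U, hU⟩ := Module.projective_lifting_property f g hf
  refine ⟨U, ?_⟩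
  ext x
  have := congrArg Subtype.val (LinearMap.congr_fun hU x)
  simpa [f, g] using this.symm

theorem pow_sub_pow_div (c : O) (A B U : Module.End O L) (h : A = B + c • U) (k : ℕ) :
    ∃ V : Module.End O L, A ^ k = B ^ k + c • V := by
  induction k with
  | zero => exact ⟨0, by simp⟩
  | succ k ih =>
    obtain ⟨V, hV⟩ := ih
    refine ⟨B ^ k * U + V * A, ?_⟩
    rw [pow_succ, pow_succ, hV, add_mul, smul_add, smul_mul_assoc, ← add_assoc]
    congr 1
    rw [h, mul_add, mul_smul_comm]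

end Gen

theorem trL : TrL := by
  intro p _ P L _ _ _ _ _ _ _ _ e a Φ S he hsat hc hv k hk
  -- the quotient is torsion free
  have hpow : ∀ (n : ℕ) (x : L), (p : ℤ_[p]) ^ n • x ∈ LinearMap.range e →
      x ∈ LinearMap.range e := by
    intro n
    induction n with
    | zero => intro x hx; simpa using hx
    | succ n ih =>
      intro x hx
      rw [pow_succ', mul_smul] at hx
      exact ih x (hsat _ hx)
  have hall : ∀ (c : ℤ_[p]), c ≠ 0 → ∀ x : L, c • x ∈ LinearMap.range e →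
      x ∈ LinearMap.range e := by
    intro c hc0 x hx
    have hs := PadicInt.unitCoeff_spec hc0
    apply hpow c.valuation
    have := (LinearMap.range e).smul_mem (((PadicInt.unitCoeff hc0)⁻¹ : ℤ_[p]ˣ) : ℤ_[p]) hx
    rw [smul_smul] at this
    have h2 : (((PadicInt.unitCoeff hc0)⁻¹ : ℤ_[p]ˣ) : ℤ_[p]) * c = (p : ℤ_[p]) ^ c.valuation := by
      rw [Units.inv_mul_eq_iff_eq_mul]
      exact hs
    rwa [h2] at this
  have : Module.IsTorsionFree ℤ_[p] (L ⧸ LinearMap.range e) := by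
    refine ⟨fun c hc0 => ?_⟩
    have hc1 : c ≠ 0 := hc0.ne_zero
    intro x y hxy
    obtain ⟨x, rfl⟩ := Submodule.Quotient.mk_surjective _ x
    obtain ⟨y, rfl⟩ := Submodule.Quotient.mk_surjective _ y
    rw [Submodule.Quotient.eq]
    apply hall c hc1
    have h3 : (Submodule.Quotient.mk (c • x) : L ⧸ LinearMap.range e) =
        Submodule.Quotient.mk (c • y) := by
      simpa using hxy
    rw [Submodule.Quotient.eq] at h3
    rwa [smul_sub]
  have : Module.Free ℤ_[p] (L ⧸ LinearMap.range e) := Module.free_of_finite_type_torsion_free'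
  obtain ⟨s, hs⟩ := Module.projective_lifting_property (LinearMap.range e).mkQ LinearMap.id
    (Submodule.mkQ_surjective _)
  -- the projection `Q` and the retraction `ρ`
  let Q : Module.End ℤ_[p] L := s ∘ₗ (LinearMap.range e).mkQ
  have hQe : ∀ y, Q (e y) = 0 := by
    intro y
    have : (LinearMap.range e).mkQ (e y) = 0 := by
      rw [Submodule.mkQ_apply, Submodule.Quotient.mk_eq_zero]; exact ⟨y, rfl⟩
    simp only [Q, LinearMap.comp_apply, this, map_zero]
  have hsq : ∀ z, (LinearMap.range e).mkQ (s z) = z := fun z => LinearMap.congr_fun hs z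
  have hmem : ∀ x, x - Q x ∈ LinearMap.range e := by
    intro x
    rw [← Submodule.Quotient.eq]
    exact (hsq _).symm
  let ρ : L →ₗ[ℤ_[p]] P := (LinearEquiv.ofInjective e he).symm.toLinearMap ∘ₗ
    (LinearMap.id - Q : L →ₗ[ℤ_[p]] L).codRestrict (LinearMap.range e) hmem
  have heρ : ∀ x, e (ρ x) = x - Q x := by
    intro x
    have := (LinearEquiv.ofInjective e he).apply_symm_apply ⟨x - Q x, hmem x⟩
    exact congrArg Subtype.val this
  have hρe : ∀ y, ρ (e y) = y := by
    intro y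
    apply he
    rw [heρ, hQe, sub_zero]
  have hQQ : ∀ x, Q (Q x) = Q x := by
    intro x
    have := hQe (ρ x)
    rw [heρ, map_sub, sub_eq_zero] at this
    exact this.symm
  -- the error term
  obtain ⟨U, hU⟩ := exists_div ((p : ℤ_[p]) ^ S) (Φ ∘ₗ e - e ∘ₗ a) fun y =>
    (mem_sm_top _ _).1 (hc y)
  have hU' : ∀ y, Φ (e y) - e (a y) = (p : ℤ_[p]) ^ S • U y := fun y => LinearMap.congr_fun hU y
  let Φ' : Module.End ℤ_[p] L := Φ - (p : ℤ_[p]) ^ S • (U ∘ₗ ρ)
  have hΦ'e : ∀ y, Φ' (e y) = e (a y) := by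
    intro y
    simp only [Φ', LinearMap.sub_apply, LinearMap.smul_apply, LinearMap.comp_apply, hρe]
    rw [← hU']; abel
  have hΦ'k : ∀ n y, (Φ' ^ n) (e y) = e ((a ^ n) y) := by
    intro n
    induction n with
    | zero => intro y; simp
    | succ n ih =>
      intro y
      rw [pow_succ, pow_succ, Module.End.mul_apply, Module.End.mul_apply, hΦ'e, ih]
  obtain ⟨V, hV⟩ := pow_sub_pow_div ((p : ℤ_[p]) ^ S) Φ Φ' (U ∘ₗ ρ) (by simp [Φ']) k
  -- `Q Φ` is divisible by `p ^ 2`
  obtain ⟨W, hW⟩ := exists_div ((p : ℤ_[p]) ^ 2) (Q ∘ₗ Φ) fun x => by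
    obtain ⟨u, hu, v, hv', huv⟩ := Submodule.mem_sup.1 (hv x)
    obtain ⟨y, rfl⟩ := hu
    obtain ⟨t, rfl⟩ := (mem_sm_top _ _).1 hv'
    refine ⟨Q t, ?_⟩
    show _ = Q (Φ x)
    rw [← huv, map_add, hQe, zero_add, map_smul]
  have hρQ : ∀ x, ρ (Q x) = 0 := by
    intro x
    apply he
    rw [heρ, hQQ, sub_self, map_zero]
  have hQΦ : ∀ x, Q (Φ' x) = (p : ℤ_[p]) ^ 2 • W (Q x) := by
    intro x
    have h1 : x = e (ρ x) + Q x := by rw [heρ]; abel
    have h2 : Φ' (Q x) = Φ (Q x) := by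
      simp only [Φ', LinearMap.sub_apply, LinearMap.smul_apply, LinearMap.comp_apply, hρQ,
        map_zero, smul_zero, sub_zero]
    conv_lhs => rw [h1]
    rw [map_add, map_add, hΦ'e, hQe, zero_add, h2]
    exact LinearMap.congr_fun hW (Q x)
  have hQΦ' : Q * Φ' = (p : ℤ_[p]) ^ 2 • (W * Q : Module.End ℤ_[p] L) := by
    ext x
    exact hQΦ x
  have hQk : ∀ n, Q * Φ' ^ n = ((p : ℤ_[p]) ^ 2) ^ n • ((W : Module.End ℤ_[p] L) ^ n * Q) := by
    intro n
    induction n with
    | zero => simp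
    | succ n ih =>
      rw [pow_succ' Φ', ← mul_assoc, hQΦ', smul_mul_assoc, mul_assoc, ih, mul_smul_comm, smul_smul,
        ← mul_assoc, ← pow_succ', ← pow_succ']
  have hsplit : Φ' ^ k = e ∘ₗ ((a ^ k) ∘ₗ ρ) + Φ' ^ k * Q := by
    ext x
    have h1 : x = e (ρ x) + Q x := by rw [heρ]; abel
    conv_lhs => rw [h1]
    rw [map_add, hΦ'k]
    rfl
  have htr : LinearMap.trace ℤ_[p] L (Φ' ^ k) = LinearMap.trace ℤ_[p] P (a ^ k) +
      ((p : ℤ_[p]) ^ 2) ^ k * LinearMap.trace ℤ_[p] L ((W : Module.End ℤ_[p] L) ^ k * Q) := by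
    conv_lhs => rw [hsplit]
    rw [map_add, LinearMap.trace_mul_comm, hQk, map_smul, smul_eq_mul,
      LinearMap.trace_comp_comm']
    congr 2
    ext y
    simp only [LinearMap.comp_apply, hρe]
  rw [hV, map_add, htr, map_smul, smul_eq_mul, add_assoc, add_sub_cancel_left, ← pow_mul]
  exact dvd_add (Dvd.dvd.mul_right (pow_dvd_pow _ (min_le_right _ _)) _)
    (Dvd.dvd.mul_right (pow_dvd_pow _ (min_le_left _ _)) _)

end

end Pool.Agent.MP_ea150c_mp.H28
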